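import Pool.Agent.H160R2.CC.Defs

/-!
# Consequences of cycle-continuous maps to the Petersen graph

Short cycle covers: the Petersen graph has twenty covers by four even subgraphs of total length
`21`, and together they cover every edge equally often.  Three even subgraphs of total length at
least twice the number of edges: the complements of the six perfect matchings.
-/

set_option autoImplicit false
set_option maxRecDepth 100000

open Finset

namespace Pool.Agent.R129.Sh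

open Pool.Agent.H160R2.CC Pool.Agent.H160R2.CC.MGraph

def psrc : Fin 15 → Fin 10 := ![0, 1, 2, 3, 4, 0, 1, 2, 3, 4, 5, 6, 7, 8, 9]

def ptgt : Fin 15 → Fin 10 := ![1, 2, 3, 4, 0, 5, 6, 7, 8, 9, 7, 8, 9, 5, 6]

/-- the twenty covers by four even subgraphs of total length 21 -/
def q : Fin 20 → Fin 4 → Finset (Fin 15) :=
  ![![{0, 1, 2, 3, 4}, {4, 5, 9, 10, 12}, {0, 5, 6, 11, 13}, {2, 7, 8, 11, 12, 14}],
    ![{0, 1, 2, 3, 4}, {4, 5, 9, 10, 12}, {1, 6, 7, 10, 11, 13}, {3, 8, 9, 11, 14}],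
    ![{0, 1, 2, 3, 4}, {2, 7, 8, 10, 13}, {3, 8, 9, 11, 14}, {0, 5, 6, 10, 12, 14}],
    ![{0, 1, 2, 3, 4}, {2, 7, 8, 10, 13}, {1, 6, 7, 12, 14}, {4, 5, 9, 11, 13, 14}],
    ![{0, 1, 2, 3, 4}, {0, 5, 6, 11, 13}, {3, 8, 9, 10, 12, 13}, {1, 6, 7, 12, 14}],
    ![{0, 1, 5, 7, 10}, {1, 2, 6, 8, 11}, {2, 3, 7, 9, 12}, {4, 5, 9, 11, 13, 14}],
    ![{0, 1, 5, 7, 10}, {1, 2, 6, 8, 11}, {3, 8, 9, 10, 12, 13}, {0, 4, 6, 9, 14}],
    ![{0, 1, 5, 7, 10}, {0, 3, 4, 6, 8, 11}, {2, 3, 7, 9, 12}, {10, 11, 12, 13, 14}],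
    ![{0, 1, 5, 7, 10}, {3, 4, 5, 8, 13}, {1, 2, 3, 6, 9, 14}, {10, 11, 12, 13, 14}],
    ![{0, 1, 5, 7, 10}, {3, 4, 5, 8, 13}, {0, 4, 6, 9, 14}, {2, 7, 8, 11, 12, 14}],
    ![{2, 3, 4, 5, 7, 10}, {1, 2, 6, 8, 11}, {0, 4, 6, 9, 14}, {10, 11, 12, 13, 14}],
    ![{2, 3, 4, 5, 7, 10}, {0, 5, 6, 11, 13}, {3, 8, 9, 11, 14}, {1, 6, 7, 12, 14}],
    ![{1, 2, 6, 8, 11}, {2, 3, 7, 9, 12}, {3, 4, 5, 8, 13}, {0, 5, 6, 10, 12, 14}],
    ![{1, 2, 6, 8, 11}, {0, 1, 4, 7, 9, 12}, {3, 4, 5, 8, 13}, {10, 11, 12, 13, 14}],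
    ![{0, 3, 4, 6, 8, 11}, {4, 5, 9, 10, 12}, {2, 7, 8, 10, 13}, {1, 6, 7, 12, 14}],
    ![{2, 3, 7, 9, 12}, {0, 1, 2, 5, 8, 13}, {0, 4, 6, 9, 14}, {10, 11, 12, 13, 14}],
    ![{2, 3, 7, 9, 12}, {3, 4, 5, 8, 13}, {1, 6, 7, 10, 11, 13}, {0, 4, 6, 9, 14}],
    ![{0, 1, 4, 7, 9, 12}, {2, 7, 8, 10, 13}, {0, 5, 6, 11, 13}, {3, 8, 9, 11, 14}],
    ![{4, 5, 9, 10, 12}, {0, 1, 2, 5, 8, 13}, {3, 8, 9, 11, 14}, {1, 6, 7, 12, 14}],
    ![{4, 5, 9, 10, 12}, {2, 7, 8, 10, 13}, {0, 5, 6, 11, 13}, {1, 2, 3, 6, 9, 14}]]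

theorem q_cyc : ∀ (g : Fin 20) (k : Fin 4) (v : Fin 10),
    Even (((q g k).filter fun e => psrc e = v).card + ((q g k).filter fun e => ptgt e = v).card) := by
  decide +kernel

theorem q_cov : ∀ (g : Fin 20) (c : Fin 15), ∃ k : Fin 4, c ∈ q g k := by decide +kernel

theorem q_sum : ∀ c : Fin 15, ∑ g : Fin 20, ∑ k : Fin 4, (if c ∈ q g k then 1 else 0) = 28 := by
  decide +kernel

/-- the complements of the perfect matchings -/
def m6 : Fin 6 → Finset (Fin 15) :=
  ![{1, 3, 4, 5, 6, 7, 8, 12, 13, 14}, {1, 2, 4, 5, 6, 8, 9, 10, 11, 12},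
    {0, 2, 4, 6, 7, 8, 9, 10, 13, 14}, {0, 2, 3, 5, 6, 7, 9, 11, 12, 13},
    {0, 1, 3, 5, 7, 8, 9, 10, 11, 14}, {0, 1, 2, 3, 4, 10, 11, 12, 13, 14}]

theorem m6_cyc : ∀ (k : Fin 6) (v : Fin 10),
    Even (((m6 k).filter fun e => psrc e = v).card + ((m6 k).filter fun e => ptgt e = v).card) := by
  decide +kernel

theorem m6_sum : ∀ c : Fin 15, ∑ k : Fin 6, (if c ∈ m6 k then 1 else 0) = 4 := by decide +kernel

theorem m6_cov : ∀ c : Fin 15, (c ∈ m6 0 ∨ c ∈ m6 1 ∨ c ∈ m6 2) ∧ (c ∈ m6 3 ∨ c ∈ m6 4 ∨ c ∈ m6 5) := by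
  decide +kernel

/-- a cover by four even subgraphs -/
theorem cover4 (G : MGraph) (h : Succ G petersen) : ∃ D : Fin 4 → Finset G.E,
    (∀ k, G.IsCycle (D k)) ∧ (∀ e, ∃ k, e ∈ D k) ∧ 5 * ∑ k, (D k).card ≤ 7 * Fintype.card G.E := by
  obtain ⟨f, hf⟩ := h
  let f' : G.E → Fin 15 := f
  have hq : ∀ g k, G.IsCycle (univ.filter (fun e => f' e ∈ q g k)) := fun g k =>
    hf (q g k) (fun v => q_cyc g k v)
  obtain ⟨g, _, hle⟩ := exists_le_of_sum_le (s := (univ : Finset (Fin 20)))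
    (f := fun g : Fin 20 => 5 * ∑ k : Fin 4, (univ.filter fun e => f' e ∈ q g k).card)
    (g := fun _ => 7 * Fintype.card G.E) ⟨0, mem_univ _⟩ (by
      rw [← mul_sum, sum_const, card_univ, Fintype.card_fin, smul_eq_mul]
      have h1 : ∀ g : Fin 20, ∑ k : Fin 4, (univ.filter fun e => f' e ∈ q g k).card =
          ∑ e, ∑ k : Fin 4, (if f' e ∈ q g k then 1 else 0) := by
        intro g
        rw [sum_comm]
        exact sum_congr rfl fun k _ => card_filter _ _
      rw [sum_congr rfl fun g _ => h1 g, sum_comm, sum_congr rfl fun e _ => q_sum (f' e),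
        sum_const, card_univ, smul_eq_mul]
      omega)
  refine ⟨fun k => univ.filter fun e => f' e ∈ q g k, hq g, ?_, hle⟩
  intro e
  obtain ⟨k, hk⟩ := q_cov g (f' e)
  exact ⟨k, mem_filter.2 ⟨mem_univ _, hk⟩⟩

/-- three even subgraphs of total length at least twice the number of edges -/
theorem cover3 (G : MGraph) (h : Succ G petersen) : ∃ D : Fin 3 → Finset G.E,
    (∀ k, G.IsCycle (D k)) ∧ (∀ e, ∃ k, e ∈ D k) ∧ 2 * Fintype.card G.E ≤ ∑ k, (D k).card := by
  obtain ⟨f, hf⟩ := h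
  let f' : G.E → Fin 15 := f
  have hq : ∀ k, G.IsCycle (univ.filter (fun e => f' e ∈ m6 k)) := fun k =>
    hf (m6 k) (fun v => m6_cyc k v)
  have hsum : ∑ k : Fin 6, (univ.filter fun e => f' e ∈ m6 k).card = 4 * Fintype.card G.E := by
    rw [sum_congr rfl fun k _ => card_filter _ _, sum_comm,
      sum_congr rfl fun e _ => m6_sum (f' e), sum_const, card_univ, smul_eq_mul, mul_comm]
  rw [Fin.sum_univ_six] at hsum
  by_cases hle : 2 * Fintype.card G.E ≤ (univ.filter fun e => f' e ∈ m6 0).card +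
      (univ.filter fun e => f' e ∈ m6 1).card + (univ.filter fun e => f' e ∈ m6 2).card
  · refine ⟨![univ.filter fun e => f' e ∈ m6 0, univ.filter fun e => f' e ∈ m6 1,
      univ.filter fun e => f' e ∈ m6 2], ?_, ?_, ?_⟩
    · intro k
      fin_cases k
      · exact hq 0
      · exact hq 1
      · exact hq 2
    · intro e
      rcases (m6_cov (f' e)).1 with h | h | h
      · exact ⟨0, mem_filter.2 ⟨mem_univ _, h⟩⟩
      · exact ⟨1, mem_filter.2 ⟨mem_univ _, h⟩⟩
      · exact ⟨2, mem_filter.2 ⟨mem_univ _, h⟩⟩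
    · rw [Fin.sum_univ_three]
      exact hle
  · refine ⟨![univ.filter fun e => f' e ∈ m6 3, univ.filter fun e => f' e ∈ m6 4,
      univ.filter fun e => f' e ∈ m6 5], ?_, ?_, ?_⟩
    · intro k
      fin_cases k
      · exact hq 3
      · exact hq 4
      · exact hq 5
    · intro e
      rcases (m6_cov (f' e)).2 with h | h | h
      · exact ⟨0, mem_filter.2 ⟨mem_univ _, h⟩⟩
      · exact ⟨1, mem_filter.2 ⟨mem_univ _, h⟩⟩
      · exact ⟨2, mem_filter.2 ⟨mem_univ _, h⟩⟩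
    · rw [Fin.sum_univ_three]
      change 2 * Fintype.card G.E ≤ (univ.filter fun e => f' e ∈ m6 3).card +
        (univ.filter fun e => f' e ∈ m6 4).card + (univ.filter fun e => f' e ∈ m6 5).card
      omega

/-- six even subgraphs with each edge in exactly four of them -/
theorem cover6 (G : MGraph) (h : Succ G petersen) : ∃ D : Fin 6 → Finset G.E,
    (∀ k, G.IsCycle (D k)) ∧ ∀ e, (univ.filter (fun k => e ∈ D k)).card = 4 := by
  obtain ⟨f, hf⟩ := h
  let f' : G.E → Fin 15 := f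
  refine ⟨fun k => univ.filter (fun e => f' e ∈ m6 k), fun k => hf (m6 k) (fun v => m6_cyc k v), ?_⟩
  intro e
  rw [card_filter, ← m6_sum (f' e)]
  exact sum_congr rfl fun k _ => by simp only [mem_filter, mem_univ, true_and]

/-- the edge set of a circuit: a minimal nonempty even set of edges -/
def IsCircuit (G : MGraph) (C : Finset G.E) : Prop :=
  C.Nonempty ∧ G.IsCycle C ∧ ∀ D ⊆ C, D.Nonempty → G.IsCycle D → D = C

theorem cyc_sdiff {G : MGraph} {C D : Finset G.E} (h : C ⊆ D) (hC : G.IsCycle C)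
    (hD : G.IsCycle D) : G.IsCycle (D \ C) := by
  intro v
  have key : ∀ p : G.E → Prop, [DecidablePred p] → ((D \ C).filter p).card + (C.filter p).card =
      (D.filter p).card := by
    intro p _
    rw [← card_union_of_disjoint, ← filter_union, sdiff_union_of_subset h]
    exact disjoint_filter_filter sdiff_disjoint
  have h1 := key (fun e => G.src e = v)
  have h2 := key (fun e => G.tgt e = v)
  have h3 := hC v
  have h4 := hD v
  unfold MGraph.deg at *
  rw [← h1, ← h2] at h4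
  have h5 : Even ((((D \ C).filter (fun e => G.src e = v)).card +
      ((D \ C).filter (fun e => G.tgt e = v)).card) +
      ((C.filter (fun e => G.src e = v)).card + (C.filter (fun e => G.tgt e = v)).card)) := by
    convert h4 using 1
    ring
  exact (Nat.even_add.mp h5).mpr h3

/-- a cycle is the disjoint union of circuits -/
theorem decomp {G : MGraph} (n : ℕ) : ∀ D : Finset G.E, D.card = n → G.IsCycle D →
    ∃ F : Multiset (Finset G.E), (∀ C ∈ F, IsCircuit G C) ∧ (∀ e ∈ D, ∃ C ∈ F, e ∈ C) ∧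
      (F.map Finset.card).sum = D.card := by
  classical
  induction n using Nat.strong_induction_on with
  | _ n ih =>
    intro D hn hD
    by_cases h0 : D.Nonempty
    · have hex : ((D.powerset).filter (fun C => C.Nonempty ∧ G.IsCycle C)).Nonempty :=
        ⟨D, mem_filter.mpr ⟨mem_powerset_self D, h0, hD⟩⟩
      obtain ⟨C, hC, hmin⟩ := exists_min_image _ (fun C : Finset G.E => C.card) hex
      rw [mem_filter, mem_powerset] at hC
      obtain ⟨hCD, hne, hcyc⟩ := hC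
      have hcirc : IsCircuit G C := by
        refine ⟨hne, hcyc, fun B hB hBn hBc => ?_⟩
        have h1 := hmin B (mem_filter.mpr ⟨mem_powerset.mpr (hB.trans hCD), hBn, hBc⟩)
        exact eq_of_subset_of_card_le hB h1
      have hcard : (D \ C).card + C.card = D.card := card_sdiff_add_card_eq_card hCD
      have hpos : 0 < C.card := card_pos.mpr hne
      obtain ⟨F, f1, f2, f3⟩ := ih (D \ C).card (by omega) (D \ C) rfl (cyc_sdiff hCD hcyc hD)
      refine ⟨C ::ₘ F, ?_, ?_, ?_⟩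
      · intro B hB
        rcases Multiset.mem_cons.mp hB with h | h
        · rw [h]; exact hcirc
        · exact f1 B h
      · intro e he
        by_cases heC : e ∈ C
        · exact ⟨C, Multiset.mem_cons_self _ _, heC⟩
        · obtain ⟨B, hB, heB⟩ := f2 e (mem_sdiff.mpr ⟨he, heC⟩)
          exact ⟨B, Multiset.mem_cons_of_mem hB, heB⟩
      · rw [Multiset.map_cons, Multiset.sum_cons, f3]
        omega
    · rw [not_nonempty_iff_eq_empty] at h0
      subst h0
      exact ⟨0, by simp, by simp, by simp⟩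

/-- covers by circuits of total length at most 7/5 times the number of edges -/
theorem short (G : MGraph) (h : Succ G petersen) : ∃ F : Multiset (Finset G.E),
    (∀ C ∈ F, IsCircuit G C) ∧ (∀ e, ∃ C ∈ F, e ∈ C) ∧
      5 * (F.map Finset.card).sum ≤ 7 * Fintype.card G.E := by
  obtain ⟨D, h1, h2, h3⟩ := cover4 G h
  have h4 : ∀ k, ∃ F : Multiset (Finset G.E), (∀ C ∈ F, IsCircuit G C) ∧
      (∀ e ∈ D k, ∃ C ∈ F, e ∈ C) ∧ (F.map Finset.card).sum = (D k).card :=
    fun k => decomp _ (D k) rfl (h1 k)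
  choose F a b c using h4
  refine ⟨∑ k, F k, ?_, ?_, ?_⟩
  · intro C hC
    rw [Multiset.mem_sum] at hC
    obtain ⟨k, _, hk⟩ := hC
    exact a k C hk
  · intro e
    obtain ⟨k, hk⟩ := h2 e
    obtain ⟨C, hC, heC⟩ := b k e hk
    exact ⟨C, Multiset.mem_sum.2 ⟨k, mem_univ _, hC⟩, heC⟩
  · have h5 : ((∑ k, F k).map Finset.card).sum = ∑ k, (D k).card := by
      rw [Fin.sum_univ_four, Fin.sum_univ_four, Multiset.map_add, Multiset.map_add,
        Multiset.map_add, Multiset.sum_add, Multiset.sum_add, Multiset.sum_add, c, c, c, c]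
    rw [h5]
    exact h3

end Pool.Agent.R129.Sh
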